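import Pool.Agent.H468R3.Rigid16

/-!
# A rigid nonprojective module over a local symmetric algebra

Over every field `K` there is a 16-dimensional local symmetric algebra `A` with an 8-dimensional
nonprojective right module `M` such that `Ext^1_A(M, M) = 0`.
-/

set_option autoImplicit false
set_option maxHeartbeats 4000000

universe u

open CategoryTheory Abelian MulOpposite

namespace Pool.Agent.Results.MP_92f261_al.RigidNonprojective

/-- `A` is a symmetric algebra: there is an isomorphism `A ≅ D(A) = Hom_K(A, K)` of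
`A`-`A`-bimodules, where `(a f c)(x) = f (c x a)` -/
def IsSymmetricAlgebra (K A : Type u) [Field K] [Ring A] [Algebra K A] : Prop :=
  ∃ e : A ≃ₗ[K] (A →ₗ[K] K), ∀ a b c x : A, e (a * b * c) x = e b (c * x * a)

open Pool.Agent.H468R3

variable {K : Type u} [Field K]

/-- coordinates -/
def coord : B K ≃ₗ[K] (Fin 16 → K) where
  toFun b := ![b.c0, b.c1, b.c2, b.c3, b.c4, b.c5, b.c6, b.c7, b.c8, b.c9, b.c10, b.c11, b.c12,
    b.c13, b.c14, b.c15]
  invFun f := ⟨f 0, f 1, f 2, f 3, f 4, f 5, f 6, f 7, f 8, f 9, f 10, f 11, f 12, f 13, f 14, f 15⟩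
  left_inv b := rfl
  right_inv f := by
    funext i
    fin_cases i <;> rfl
  map_add' a b := by
    funext i
    fin_cases i <;> rfl
  map_smul' a b := by
    funext i
    fin_cases i <;> rfl

instance : FiniteDimensional K (B K) := Module.Finite.equiv (coord (K := K)).symm

theorem finrank_B : Module.finrank K (B K) = 16 := by
  rw [LinearEquiv.finrank_eq (coord (K := K))]
  simp

theorem pow5 (a : B K) (h : a.c0 = 0) : a ^ 5 = 0 := by
  have h2 : (a * a).c0 = 0 ∧ (a * a).c1 = 0 ∧ (a * a).c2 = 0 ∧ (a * a).c3 = 0 ∧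
      (a * a).c4 = 0 := by
    simp [h]
  obtain ⟨p0, p1, p2, p3, p4⟩ := h2
  set b := a * a with hb
  have h4 : (b * b).c0 = 0 ∧ (b * b).c1 = 0 ∧ (b * b).c2 = 0 ∧ (b * b).c3 = 0 ∧
      (b * b).c4 = 0 ∧ (b * b).c5 = 0 ∧ (b * b).c6 = 0 ∧ (b * b).c7 = 0 ∧ (b * b).c8 = 0 ∧
      (b * b).c9 = 0 ∧ (b * b).c10 = 0 ∧ (b * b).c11 = 0 ∧ (b * b).c12 = 0 ∧ (b * b).c13 = 0 ∧
      (b * b).c14 = 0 := by
    simp [p0, p1, p2, p3, p4]
  obtain ⟨q0, q1, q2, q3, q4, q5, q6, q7, q8, q9, q10, q11, q12, q13, q14⟩ := h4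
  set c := b * b with hc
  have h5 : c * a = 0 := by
    ext <;> simp [h, q0, q1, q2, q3, q4, q5, q6, q7, q8, q9, q10, q11, q12, q13, q14]
  have : a ^ 5 = c * a := by
    rw [hc, hb]
    simp only [pow_succ, pow_zero, one_mul, mul_assoc]
  rw [this, h5]

theorem isUnit_one_add (a : B K) (h : a.c0 = 0) : IsUnit (1 + a) :=
  IsNilpotent.isUnit_one_add ⟨5, pow5 a h⟩

theorem isUnit_of (a : B K) (h : a.c0 ≠ 0) : IsUnit a := by
  have h1 : IsUnit (1 + ((a.c0)⁻¹ • a - 1) : B K) := by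
    apply isUnit_one_add
    rw [sub_eq_add_neg]
    simp [h]
  have h2 : a = algebraMap K (B K) a.c0 * (1 + ((a.c0)⁻¹ • a - 1)) := by
    rw [add_sub_cancel, ← Algebra.smul_def, smul_smul, mul_inv_cancel₀ h, one_smul]
  rw [h2]
  exact ((Ne.isUnit h).map (algebraMap K (B K))).mul h1

instance : Nontrivial (B K) := ⟨⟨0, 1, fun h => by
  have := congrArg B.c0 h
  simp at this⟩⟩

instance isLocal : IsLocalRing (B K) where
  isUnit_or_isUnit_of_add_one {a b} h := by
    have h0 := congrArg B.c0 h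
    simp only [B.add_c0, B.one_c0] at h0
    by_cases ha : a.c0 = 0
    · right
      apply isUnit_of
      rw [ha, zero_add] at h0
      rw [h0]
      exact one_ne_zero
    · left
      exact isUnit_of a ha

/-- the symmetric form -/
def form : B K →ₗ[K] (B K →ₗ[K] K) :=
  LinearMap.mk₂ K (fun b x => (b * x).c15)
    (fun a b x => by rw [add_mul]; rfl)
    (fun t b x => by rw [smul_mul_assoc]; rfl)
    (fun b x y => by rw [mul_add]; rfl)
    (fun t b x => by rw [mul_smul_comm]; rfl)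

theorem form_apply (b x : B K) : form b x = (b * x).c15 := rfl

theorem form_symm (b x : B K) : (b * x).c15 = (x * b).c15 := by
  simp only [B.mul_c15]
  ring

theorem form_inj : Function.Injective (form (K := K)) := by
  rw [← LinearMap.ker_eq_bot, LinearMap.ker_eq_bot']
  intro b hb
  have h (x : B K) : (b * x).c15 = 0 := by
    rw [← form_apply, hb]
    rfl
  have e0 := h ⟨0, 0, 0, 0, 0, 0, 0, 0, 0, 0, 0, 0, 0, 0, 0, 1⟩
  have e1 := h ⟨0, 0, 0, 0, 0, 0, 0, 0, 0, 0, 0, 1, 0, 0, 0, 0⟩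
  have e2 := h ⟨0, 0, 0, 0, 0, 0, 0, 0, 0, 0, 0, 0, 1, 0, 0, 0⟩
  have e3 := h ⟨0, 0, 0, 0, 0, 0, 0, 0, 0, 0, 0, 0, 0, 1, 0, 0⟩
  have e4 := h ⟨0, 0, 0, 0, 0, 0, 0, 0, 0, 0, 0, 0, 0, 0, 1, 0⟩
  have e5 := h ⟨0, 0, 0, 0, 0, 1, 0, 0, 0, 0, 0, 0, 0, 0, 0, 0⟩
  have e6 := h ⟨0, 0, 0, 0, 0, 0, 1, 0, 0, 0, 0, 0, 0, 0, 0, 0⟩
  have e7 := h ⟨0, 0, 0, 0, 0, 0, 0, 1, 0, 0, 0, 0, 0, 0, 0, 0⟩
  have e8 := h ⟨0, 0, 0, 0, 0, 0, 0, 0, 1, 0, 0, 0, 0, 0, 0, 0⟩
  have e9 := h ⟨0, 0, 0, 0, 0, 0, 0, 0, 0, 1, 0, 0, 0, 0, 0, 0⟩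
  have e10 := h ⟨0, 0, 0, 0, 0, 0, 0, 0, 0, 0, 1, 0, 0, 0, 0, 0⟩
  have e11 := h ⟨0, 1, 0, 0, 0, 0, 0, 0, 0, 0, 0, 0, 0, 0, 0, 0⟩
  have e12 := h ⟨0, 0, 1, 0, 0, 0, 0, 0, 0, 0, 0, 0, 0, 0, 0, 0⟩
  have e13 := h ⟨0, 0, 0, 1, 0, 0, 0, 0, 0, 0, 0, 0, 0, 0, 0, 0⟩
  have e14 := h ⟨0, 0, 0, 0, 1, 0, 0, 0, 0, 0, 0, 0, 0, 0, 0, 0⟩
  have e15 := h ⟨1, 0, 0, 0, 0, 0, 0, 0, 0, 0, 0, 0, 0, 0, 0, 0⟩
  simp only [B.mul_c15, mul_zero, mul_one, add_zero, zero_add, sub_zero, zero_sub] at *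
  ext <;> simp only [B.zero_c0, B.zero_c1, B.zero_c2, B.zero_c3, B.zero_c4, B.zero_c5, B.zero_c6,
    B.zero_c7, B.zero_c8, B.zero_c9, B.zero_c10, B.zero_c11, B.zero_c12, B.zero_c13, B.zero_c14,
    B.zero_c15] <;> grind

theorem isSymmetric : IsSymmetricAlgebra K (B K) := by
  refine ⟨LinearEquiv.ofInjectiveOfFinrankEq form form_inj ?_, ?_⟩
  · exact (Subspace.dual_finrank_eq).symm
  · intro a b c x
    change (a * b * c * x).c15 = (b * (c * x * a)).c15
    rw [mul_assoc a b c, mul_assoc a, form_symm]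
    simp only [mul_assoc]

/-- a symmetric local algebra is selfinjective: Baer's criterion -/
theorem selfinjective (A : Type u) [Ring A] [Algebra K A] [FiniteDimensional K A]
    (h : IsSymmetricAlgebra K A) : Module.Injective Aᵐᵒᵖ A := by
  obtain ⟨e, he⟩ := h
  apply Module.Baer.injective
  intro I g
  -- the linear functional `i ↦ e 1 (g i)` on the right ideal `I`
  let I' : Submodule K A :=
    { carrier := {x | op x ∈ I}
      add_mem' := fun {a b} ha hb => I.add_mem ha hb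
      zero_mem' := I.zero_mem
      smul_mem' := fun t x hx => by
        have : op (t • x) = (op (algebraMap K A t)) * op x := by
          rw [← op_mul, Algebra.smul_def, Algebra.commutes]
        change op (t • x) ∈ I
        rw [this]
        exact I.mul_mem_left _ hx }
  have hadd (a b : A) (ha : op a ∈ I) (hb : op b ∈ I) (hab : op (a + b) ∈ I) :
      g ⟨op (a + b), hab⟩ = g ⟨op a, ha⟩ + g ⟨op b, hb⟩ := by
    rw [← map_add]
    rfl
  have hmul (a b : A) (ha : op a ∈ I) (hab : op (a * b) ∈ I) :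
      g ⟨op (a * b), hab⟩ = g ⟨op a, ha⟩ * b := by
    have : g ((op b) • (⟨op a, ha⟩ : I)) = (op b) • g ⟨op a, ha⟩ := map_smul g _ _
    exact this
  let L : I' →ₗ[K] K :=
    { toFun := fun i => e 1 (g ⟨op i.1, i.2⟩)
      map_add' := fun a b => by
        have := hadd a.1 b.1 a.2 b.2 (a + b).2
        change e 1 (g ⟨op (a.1 + b.1), _⟩) = _
        rw [this, map_add]
      map_smul' := fun t a => by
        have hm : op (a.1 * algebraMap K A t) ∈ I := by
          rw [← Algebra.commutes, ← Algebra.smul_def]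
          exact (t • a).2
        have h2 := hmul a.1 (algebraMap K A t) a.2 hm
        have h3 : (⟨op (t • a).1, (t • a).2⟩ : I) = ⟨op (a.1 * algebraMap K A t), hm⟩ := by
          apply Subtype.ext
          change op (t • a.1) = _
          rw [Algebra.smul_def, Algebra.commutes]
        change e 1 (g ⟨op (t • a).1, (t • a).2⟩) = t • _
        rw [h3, h2, ← Algebra.commutes, ← Algebra.smul_def, map_smul] }
  obtain ⟨F, hF⟩ := LinearMap.exists_extend L
  obtain ⟨c, hc⟩ := e.surjective F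
  -- `g i = c i`
  refine ⟨{ toFun := fun x => c * x.unop
            map_add' := fun x y => by simp [mul_add]
            map_smul' := fun r x => by simp [mul_assoc] }, ?_⟩
  intro x hx
  have key : ∀ a : A, e 1 ((c * x.unop - g ⟨x, hx⟩) * a) = 0 := by
    intro a
    have hxa : op (x.unop * a) ∈ I := by
      have : op (x.unop * a) = op a * x := by
        rw [op_mul, op_unop]
      rw [this]
      exact I.mul_mem_left _ hx
    have h1 : F (x.unop * a) = e 1 (g ⟨op (x.unop * a), hxa⟩) := by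
      have := LinearMap.congr_fun hF ⟨x.unop * a, hxa⟩
      exact this
    have h2 := hmul x.unop a hx hxa
    have h3 : e 1 (c * (x.unop * a)) = F (x.unop * a) := by
      rw [← hc]
      have h4 := he c 1 1 (x.unop * a)
      have h5 := he 1 1 c (x.unop * a)
      rw [mul_one, mul_one, one_mul] at h4
      rw [one_mul, one_mul, mul_one] at h5
      have h6 := he 1 1 c (x.unop * a)
      rw [one_mul, one_mul, mul_one] at h6
      rw [h6]
    rw [sub_mul, map_sub, mul_assoc, h3, h1, h2]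
    simp
  have h0 : c * x.unop - g ⟨x, hx⟩ = 0 := by
    set d := c * x.unop - g ⟨x, hx⟩ with hd
    have : e d = 0 := by
      apply LinearMap.ext
      intro a
      have h6 := he 1 1 d a
      rw [one_mul, one_mul, mul_one] at h6
      rw [h6, key a]
      rfl
    exact (LinearEquiv.map_eq_zero_iff e).1 this
  exact sub_eq_zero.1 h0

/-- **Theorem.** Over every field `K` there are a local symmetric (hence selfinjective)
16-dimensional algebra `A` and a finitely generated nonprojective right `A`-module `M` with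
`Ext^1_A(M, M) = 0`. -/
theorem result (K : Type u) [Field K] :
    ∃ (A : Type u) (_ : Ring A) (_ : Algebra K A),
      FiniteDimensional K A ∧ Module.finrank K A = 16 ∧ IsLocalRing A ∧ IsSymmetricAlgebra K A ∧
      Module.Injective Aᵐᵒᵖ A ∧
      ∃ (M : Type u) (_ : AddCommGroup M) (_ : Module Aᵐᵒᵖ M),
        Module.Finite Aᵐᵒᵖ M ∧ ¬ Module.Projective Aᵐᵒᵖ M ∧
        Subsingleton (Ext (ModuleCat.of Aᵐᵒᵖ M) (ModuleCat.of Aᵐᵒᵖ M) 1) := by
  refine ⟨B K, inferInstance, inferInstance, inferInstance, finrank_B, inferInstance, isSymmetric,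
    selfinjective _ isSymmetric, B K ⧸ rid (B.x0 : B K), inferInstance, inferInstance, ?_, ?_, ?_⟩
  · have : Module.Finite (B K)ᵐᵒᵖ (B K) := by
      refine ⟨⟨{1}, ?_⟩⟩
      rw [Finset.coe_singleton, eq_top_iff]
      intro x _
      rw [Submodule.mem_span_singleton]
      exact ⟨op x, one_mul x⟩
    infer_instance
  · refine not_proj _ B.x0_ne fun c => isUnit_one_add _ ?_
    simp [B.x0]
  · exact ext_cyclic B.x0 B.x1 B.x3 B.x0x3 B.x1x0 B.key

end Pool.Agent.Results.MP_92f261_al.RigidNonprojective
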